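import Pool.Agent.Lib_helper38.G4.DB
import Pool.Agent.Lib_helper44.G5.Defs

/-! Blocks SIV, OPA, DAB (helper38). DAB uses SIV and OPA. -/

namespace Pool.Agent.G5

open Complex MeasureTheory Filter Topology

open Pool.Agent.G4 (par Ix ev pairs RSB IsKer D hatw smo)

variable {m : ℕ}

theorem SIV_dd {p q : ℕ} (b : ℕ → ℂ) (c : ℂ) (n : ℕ) :
    (if p ∣ n then c * (if q ∣ n / p then b (n / p / q) else 0) else 0) =
      if p * q ∣ n then c * b (n / (p * q)) else 0 := by
  rw [Nat.div_div_eq_div_mul]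
  rcases Nat.eq_zero_or_pos p with hp | hp
  · subst hp
    simp only [zero_mul, zero_dvd_iff, Nat.div_zero]
    by_cases hn : n = 0
    · simp [hn]
    · simp [hn]
  · by_cases h : p ∣ n
    · rw [if_pos h]
      by_cases hq : q ∣ n / p
      · rw [if_pos hq, if_pos ((Nat.dvd_div_iff_mul_dvd h).mp hq)]
      · rw [if_neg hq, if_neg (fun h2 => hq ((Nat.dvd_div_iff_mul_dvd h).mpr h2)), mul_zero]
    · rw [if_neg h, if_neg (fun h2 => h (dvd_trans (dvd_mul_right p q) h2))]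

theorem SIV_comm (a a' : ℕ × ℂ) (b : ℕ → ℂ) : opA a (opA a' b) = opA a' (opA a b) := by
  have key : ∀ (a a' : ℕ × ℂ) (n : ℕ), opA a (opA a' b) n =
      b n - (if a'.1 ∣ n then a'.2 * b (n / a'.1) else 0) -
        (if a.1 ∣ n then a.2 * b (n / a.1) else 0) +
        (if a.1 * a'.1 ∣ n then (a.2 * a'.2) * b (n / (a.1 * a'.1)) else 0) := by
    intro a a' n
    have h1 := SIV_dd (p := a.1) (q := a'.1) b (a.2 * a'.2) n
    rw [← h1]
    unfold opA
    by_cases h : a.1 ∣ n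
    · rw [if_pos h, if_pos h, if_pos h]
      by_cases h' : a'.1 ∣ n / a.1
      · rw [if_pos h', if_pos h']
        ring
      · rw [if_neg h', if_neg h']
        ring
    · rw [if_neg h, if_neg h, if_neg h]
      ring
  funext n
  rw [key a a' n, key a' a n, mul_comm a.1 a'.1, mul_comm a.2 a'.2]
  ring

/-- the local generating series -/
noncomputable def SIV_ps (p n : ℕ) (b : ℕ → ℂ) : PowerSeries ℂ :=
  PowerSeries.mk fun k => b (p ^ k * n)

theorem SIV_ps_opA {p n : ℕ} (hp : p.Prime) (hn : ¬ p ∣ n) (c : ℂ) (b : ℕ → ℂ) :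
    SIV_ps p n (opA (p, c) b) = (1 - PowerSeries.C c * PowerSeries.X) * SIV_ps p n b := by
  ext k
  rw [sub_mul, one_mul, map_sub, mul_assoc, PowerSeries.coeff_C_mul]
  unfold SIV_ps opA
  cases k with
  | zero =>
    rw [PowerSeries.coeff_mk, PowerSeries.coeff_mk, pow_zero, one_mul, if_neg hn]
    simp
  | succ k =>
    rw [PowerSeries.coeff_mk, PowerSeries.coeff_mk, PowerSeries.coeff_succ_X_mul,
      PowerSeries.coeff_mk, if_pos (Dvd.dvd.mul_right (dvd_pow_self p (Nat.succ_ne_zero k)) n)]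
    have h1 : p ^ (k + 1) * n / p = p ^ k * n := by
      rw [pow_succ', mul_assoc, Nat.mul_div_cancel_left _ hp.pos]
    rw [h1]

theorem SIV_ps_foldr {p n : ℕ} (hp : p.Prime) (hn : ¬ p ∣ n) (b : ℕ → ℂ) (L : List ℂ) :
    SIV_ps p n ((L.map fun c => (p, c)).foldr opA b) =
      (L.map fun c => (1 - PowerSeries.C c * PowerSeries.X)).prod * SIV_ps p n b := by
  induction L with
  | nil => simp
  | cons c L ih =>
    rw [List.map_cons, List.foldr_cons, SIV_ps_opA hp hn, ih, List.map_cons, List.prod_cons,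
      mul_assoc]

theorem SIV_zero {L : List (ℕ × ℂ)} {b : ℕ → ℂ} (hb : b 0 = 0) :
    L.foldr opA b 0 = 0 := by
  induction L with
  | nil => exact hb
  | cons a L ih =>
    rw [List.foldr_cons]
    have h : ∀ b' : ℕ → ℂ, b' 0 = 0 → opA a b' 0 = 0 := by
      intro b' h'
      unfold opA
      simp [h']
    exact h _ ih

theorem SIV_aB_zero (S : Sys m) (B : Finset ℕ) : aB S B 0 = 0 := by
  unfold aB
  rw [S.a_zero, ite_self]

/-- one prime -/
theorem SIV_one (S : Sys m) {B : Finset ℕ} {p : ℕ} (hp : p.Prime) (hB : ∀ q ∈ B, q.Prime)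
    (hpB : p ∉ B) :
    (((Finset.univ : Finset (Fin m)).toList.map fun j => (p, S.α p j)).foldr opA (aB S B)) =
      aB S (insert p B) := by
  classical
  funext n
  rcases Nat.eq_zero_or_pos n with h0 | h0
  · subst h0
    rw [SIV_aB_zero, SIV_zero (SIV_aB_zero S B)]
  obtain ⟨k, n', hn', rfl⟩ : ∃ k n', ¬ p ∣ n' ∧ n = p ^ k * n' :=
    Nat.exists_eq_pow_mul_and_not_dvd h0.ne' p hp.ne_one
  have hn0 : 0 < n' := Nat.pos_of_ne_zero fun h => hn' (h ▸ dvd_zero p)
  have hcop : ∀ k, (p ^ k).Coprime n' := fun k => Nat.Coprime.pow_left k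
    ((Nat.Prime.coprime_iff_not_dvd hp).mpr hn')
  have h1 := SIV_ps_foldr hp hn' (aB S B) ((Finset.univ : Finset (Fin m)).toList.map (S.α p))
  rw [List.map_map, List.map_map] at h1
  have h2 : SIV_ps p n' (aB S B) =
      PowerSeries.C (aB S B n') * PowerSeries.mk (fun k => S.a (p ^ k)) := by
    ext i
    rw [PowerSeries.coeff_C_mul, PowerSeries.coeff_mk]
    unfold SIV_ps
    rw [PowerSeries.coeff_mk]
    have h3 : (∀ q ∈ B, ¬ q ∣ p ^ i * n') ↔ (∀ q ∈ B, ¬ q ∣ n') := by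
      constructor
      · intro h q hq hd
        exact h q hq (Dvd.dvd.mul_left hd _)
      · intro h q hq hd
        rcases (Nat.Prime.dvd_mul (hB q hq)).mp hd with h4 | h4
        · have h5 := (Nat.prime_dvd_prime_iff_eq (hB q hq) hp).mp
            ((hB q hq).dvd_of_dvd_pow h4)
          exact hpB (h5 ▸ hq)
        · exact h q hq h4
    unfold aB
    by_cases h6 : ∀ q ∈ B, ¬ q ∣ n'
    · rw [if_pos h6, if_pos (h3.mpr h6), S.a_mul _ _ (hcop i)]
      ring
    · rw [if_neg h6, if_neg (fun h => h6 (h3.mp h)), zero_mul]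
  have h3 : (((Finset.univ : Finset (Fin m)).toList.map
      ((fun c => (1 - PowerSeries.C c * PowerSeries.X)) ∘ S.α p)).prod : PowerSeries ℂ) =
      ∏ j, (1 - PowerSeries.C (S.α p j) * PowerSeries.X) := by
    rw [← Finset.prod_map_toList]
    rfl
  rw [h2, h3] at h1
  have h4 : (∏ j, (1 - PowerSeries.C (S.α p j) * PowerSeries.X)) *
      (PowerSeries.C (aB S B n') * PowerSeries.mk (fun k => S.a (p ^ k))) =
      PowerSeries.C (aB S B n') := by
    rw [mul_comm, mul_assoc, S.euler p hp, mul_one]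
  rw [h4] at h1
  have h5 := congrArg (PowerSeries.coeff k) h1
  unfold SIV_ps at h5
  rw [PowerSeries.coeff_mk] at h5
  have h6 : ((fun c => (p, c)) ∘ S.α p) = fun j => (p, S.α p j) := rfl
  rw [h6] at h5
  rw [h5, PowerSeries.coeff_C]
  unfold aB
  by_cases hk : k = 0
  · subst hk
    rw [if_pos rfl, pow_zero, one_mul]
    congr 1
    simp only [Finset.mem_insert, forall_eq_or_imp, hn', not_false_eq_true, true_and]
  · rw [if_neg hk, if_neg]
    intro h
    exact h p (Finset.mem_insert_self p B) (Dvd.dvd.mul_right (dvd_pow_self p hk) n')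

/-- SIV -/
theorem opA_facs_pr (S : Sys m) {B : Finset ℕ} (hB : ∀ p ∈ B, p.Prime) :
    (facs S B).foldr opA S.a = aB S B := by
  classical
  induction B using Finset.induction_on with
  | empty =>
    funext n
    unfold facs aB
    simp
  | insert p B hpB ih =>
    have hp := hB p (Finset.mem_insert_self p B)
    have hB' : ∀ q ∈ B, q.Prime := fun q hq => hB q (Finset.mem_insert_of_mem hq)
    have h1 : List.Perm (((insert p B) ×ˢ (Finset.univ : Finset (Fin m))).toList)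
        (((Finset.univ : Finset (Fin m)).toList.map fun j => (p, j)) ++
          (B ×ˢ (Finset.univ : Finset (Fin m))).toList) := by
      rw [List.perm_ext_iff_of_nodup (Finset.nodup_toList _)]
      · intro x
        obtain ⟨q, j⟩ := x
        simp only [Finset.mem_toList, Finset.mem_product, Finset.mem_insert, Finset.mem_univ,
          and_true, List.mem_append, List.mem_map, true_and, Prod.mk.injEq]
        constructor
        · rintro (h | h)
          · exact Or.inl ⟨j, h.symm, rfl⟩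
          · exact Or.inr h
        · rintro (⟨j', h, -⟩ | h)
          · exact Or.inl h.symm
          · exact Or.inr h
      · rw [List.nodup_append]
        refine ⟨?_, Finset.nodup_toList _, ?_⟩
        · exact (Finset.nodup_toList _).map (fun i j h => by simpa using h)
        · intro x hx y hy hxy
          subst hxy
          rw [List.mem_map] at hx
          obtain ⟨j, -, rfl⟩ := hx
          rw [Finset.mem_toList, Finset.mem_product] at hy
          exact hpB hy.1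
    have h2 : List.Perm (facs S (insert p B))
        (((Finset.univ : Finset (Fin m)).toList.map fun j => (p, S.α p j)) ++ facs S B) := by
      have h3 := h1.map (fun a : ℕ × Fin m => (a.1, S.α a.1 a.2))
      rw [List.map_append, List.map_map] at h3
      exact h3
    have h3 : (facs S (insert p B)).foldr opA S.a =
        (((Finset.univ : Finset (Fin m)).toList.map fun j => (p, S.α p j)) ++
          facs S B).foldr opA S.a :=
      h2.foldr_eq' (fun x _ y _ z => SIV_comm y x z) S.a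
    rw [h3, List.foldr_append, ih hB', SIV_one S hp hB' hpB]

/-- OPA -/
theorem rsb_opA_pr {b : ℕ → ℂ} {Cb : ℝ} (hb : RSB b Cb) {a : ℕ × ℂ} (ha : a.1.Prime) :
    ∃ C : ℝ, RSB (opA a b) C := by
  have hC := G4.DB_RSB_nonneg hb
  refine ⟨2 * Cb + 2 * ‖a.2‖ ^ 2 * Cb, fun x => ?_⟩
  have h1 : ∀ n, ‖opA a b n‖ ^ 2 ≤ 2 * ‖b n‖ ^ 2 +
      2 * ‖a.2‖ ^ 2 * (if a.1 ∣ n then ‖b (n / a.1)‖ ^ 2 else 0) := by
    intro n
    unfold opA
    by_cases h : a.1 ∣ n
    · rw [if_pos h, if_pos h]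
      have h2 : ‖b n - a.2 * b (n / a.1)‖ ≤ ‖b n‖ + ‖a.2‖ * ‖b (n / a.1)‖ := by
        rw [← norm_mul]
        exact norm_sub_le _ _
      have h3 : ‖b n - a.2 * b (n / a.1)‖ ^ 2 ≤ (‖b n‖ + ‖a.2‖ * ‖b (n / a.1)‖) ^ 2 :=
        pow_le_pow_left₀ (norm_nonneg _) h2 2
      nlinarith [sq_nonneg (‖b n‖ - ‖a.2‖ * ‖b (n / a.1)‖)]
    · rw [if_neg h, if_neg h, sub_zero, mul_zero, add_zero]
      nlinarith [sq_nonneg ‖b n‖]
  have h2 : ∑ n ∈ Finset.Icc 1 x, (if a.1 ∣ n then ‖b (n / a.1)‖ ^ 2 else 0) ≤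
      ∑ n ∈ Finset.Icc 1 x, ‖b n‖ ^ 2 := by
    rw [← Finset.sum_filter]
    have h3 : ∑ n ∈ (Finset.Icc 1 x).filter (fun n => a.1 ∣ n), ‖b (n / a.1)‖ ^ 2 =
        ∑ n ∈ ((Finset.Icc 1 x).filter (fun n => a.1 ∣ n)).image (fun n => n / a.1),
          ‖b n‖ ^ 2 := by
      rw [Finset.sum_image]
      intro n hn n' hn' h
      simp only [Finset.coe_filter, Set.mem_setOf_eq] at hn hn'
      have h4 := Nat.div_mul_cancel hn.2
      have h5 := Nat.div_mul_cancel hn'.2
      simp only at h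
      rw [← h4, ← h5, h]
    rw [h3]
    apply Finset.sum_le_sum_of_subset_of_nonneg
    · intro y hy
      rw [Finset.mem_image] at hy
      obtain ⟨n, hn, rfl⟩ := hy
      rw [Finset.mem_filter, Finset.mem_Icc] at hn
      rw [Finset.mem_Icc]
      refine ⟨Nat.div_pos (Nat.le_of_dvd (by omega) hn.2) ha.pos, le_trans (Nat.div_le_self _ _) hn.1.2⟩
    · intro i _ _
      positivity
  have h3 := hb x
  calc ∑ n ∈ Finset.Icc 1 x, ‖opA a b n‖ ^ 2 ≤ ∑ n ∈ Finset.Icc 1 x, (2 * ‖b n‖ ^ 2 +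
      2 * ‖a.2‖ ^ 2 * (if a.1 ∣ n then ‖b (n / a.1)‖ ^ 2 else 0)) :=
        Finset.sum_le_sum fun n _ => h1 n
    _ = 2 * ∑ n ∈ Finset.Icc 1 x, ‖b n‖ ^ 2 + 2 * ‖a.2‖ ^ 2 *
        ∑ n ∈ Finset.Icc 1 x, (if a.1 ∣ n then ‖b (n / a.1)‖ ^ 2 else 0) := by
        rw [Finset.sum_add_distrib, Finset.mul_sum, Finset.mul_sum]
    _ ≤ 2 * (Cb * x) + 2 * ‖a.2‖ ^ 2 * (Cb * x) := by
        have := sq_nonneg ‖a.2‖
        gcongr
        exact h2.trans h3
    _ = (2 * Cb + 2 * ‖a.2‖ ^ 2 * Cb) * x := by ring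

theorem OPA_summable {κ : ℝ} (hκ : 0 < κ) {K : ℝ → ℂ} (hK : IsKer κ K) {b : ℕ → ℂ} {Cb : ℝ}
    (hb : RSB b Cb) (x : Ix) (u : ℝ) :
    Summable fun n : ℕ => b n * ev x n * (((√(n : ℝ))⁻¹ : ℝ) : ℂ) * K (u + Real.log n) := by
  apply Summable.of_norm_bounded (G4.db_summable_pr hκ hK hb u)
  intro n
  rcases Nat.eq_zero_or_pos n with h0 | h0
  · subst h0
    simp
  have h1 : (1 : ℝ) ≤ n := by exact_mod_cast h0
  rw [norm_mul, norm_mul, norm_mul, Complex.norm_real, Real.norm_of_nonneg (by positivity)]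
  have h2 := G4.DB_ev x n
  calc ‖b n‖ * ‖ev x n‖ * (√(n : ℝ))⁻¹ * ‖K (u + Real.log n)‖ ≤
      ‖b n‖ * 1 * (√(n : ℝ))⁻¹ * ‖K (u + Real.log n)‖ := by gcongr
    _ = 1 * (‖b n‖ * (√(n : ℝ))⁻¹ * ‖K (u + Real.log n)‖) := by ring
    _ ≤ (n : ℝ) * (‖b n‖ * (√(n : ℝ))⁻¹ * ‖K (u + Real.log n)‖) := by gcongr

theorem OPA_ev_mul (x : Ix) (m n : ℕ) : ev x (m * n) = ev x m * ev x n := by
  unfold G4.ev
  rw [Nat.cast_mul, map_mul]

/-- OPA: `opT` on a density -/
theorem opT_D_pr {κ : ℝ} (hκ : 0 < κ) {K : ℝ → ℂ} (hK : IsKer κ K) {b : ℕ → ℂ} {Cb : ℝ}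
    (hb : RSB b Cb) {a : ℕ × ℂ} (ha : a.1.Prime) (x : Ix) (u : ℝ) :
    D b K x u - a.2 * ev x a.1 * (((√(a.1 : ℝ))⁻¹ : ℝ) : ℂ) * D b K x (u + Real.log a.1) =
      D (opA a b) K x u := by
  obtain ⟨p, c⟩ := a
  simp only at ha ⊢
  have s1 := OPA_summable hκ hK hb x u
  have s2 := (OPA_summable hκ hK hb x (u + Real.log p)).mul_left
    (c * ev x p * (((√(p : ℝ))⁻¹ : ℝ) : ℂ))
  set f : ℕ → ℂ := fun n => (if p ∣ n then c * b (n / p) else 0) * ev x n *
    (((√(n : ℝ))⁻¹ : ℝ) : ℂ) * K (u + Real.log n) with hf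
  have hinj : Function.Injective (fun n : ℕ => p * n) := fun i j h =>
    Nat.eq_of_mul_eq_mul_left ha.pos h
  have hcomp : ∀ n : ℕ, f (p * n) = c * ev x p * (((√(p : ℝ))⁻¹ : ℝ) : ℂ) *
      (b n * ev x n * (((√(n : ℝ))⁻¹ : ℝ) : ℂ) * K (u + Real.log p + Real.log n)) := by
    intro n
    rcases Nat.eq_zero_or_pos n with h0 | h0
    · subst h0
      simp [hf]
    simp only [hf]
    rw [if_pos (dvd_mul_right p n), Nat.mul_div_cancel_left _ ha.pos, OPA_ev_mul]
    have hp0 : (0 : ℝ) < p := by exact_mod_cast ha.pos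
    have hn0 : (0 : ℝ) < n := by exact_mod_cast h0
    push_cast
    rw [Real.sqrt_mul hp0.le, Real.log_mul hp0.ne' hn0.ne', ← add_assoc]
    push_cast
    rw [mul_inv]
    ring
  have hzero : ∀ n : ℕ, n ∉ Set.range (fun n : ℕ => p * n) → f n = 0 := by
    intro n hn
    simp only [hf]
    rw [if_neg, zero_mul, zero_mul, zero_mul]
    rintro ⟨k, rfl⟩
    exact hn ⟨k, rfl⟩
  have hfs : Summable f := by
    rw [← hinj.summable_iff hzero]
    refine s2.congr fun n => ?_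
    exact (hcomp n).symm
  have h1 : ∑' n, f n = c * ev x p * (((√(p : ℝ))⁻¹ : ℝ) : ℂ) * D b K x (u + Real.log p) := by
    unfold G4.D
    rw [← tsum_mul_left, ← hinj.tsum_eq (f := f)]
    · exact tsum_congr hcomp
    · intro n hn
      by_contra h
      exact hn (hzero n h)
  rw [← h1]
  unfold G4.D
  rw [← s1.tsum_sub hfs]
  apply tsum_congr
  intro n
  simp only [hf, opA]
  ring

theorem DAB_list {S : Sys m} (k : Kers S) (L : List (ℕ × ℂ)) (hL : ∀ a ∈ L, a.1.Prime) :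
    (∃ C, RSB (L.foldr opA S.a) C) ∧ ∀ (x : Ix) (u : ℝ),
      opTs L (Dx k) x u = D (L.foldr opA S.a) (k.K (par x.2)) x u := by
  induction L with
  | nil =>
    refine ⟨S.rs, fun x u => rfl⟩
  | cons a L ih =>
    have ha := hL a List.mem_cons_self
    obtain ⟨⟨C, hC⟩, h2⟩ := ih fun q hq => hL q (List.mem_cons_of_mem a hq)
    refine ⟨rsb_opA_pr hC ha, fun x u => ?_⟩
    rw [List.foldr_cons, ← opT_D_pr k.κ_pos (k.isKer (par x.2)) hC ha x u, ← h2 x u,
      ← h2 x (u + Real.log a.1)]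
    rfl

/-- DAB -/
theorem opTs_D_pr {S : Sys m} (k : Kers S) {B : Finset ℕ} (hB : ∀ p ∈ B, p.Prime) (x : Ix)
    (u : ℝ) : opTs (facs S B) (Dx k) x u = D (aB S B) (k.K (par x.2)) x u := by
  rw [← opA_facs_pr S hB]
  refine (DAB_list k (facs S B) ?_).2 x u
  intro a ha
  unfold facs at ha
  rw [List.mem_map] at ha
  obtain ⟨y, hy, rfl⟩ := ha
  rw [Finset.mem_toList, Finset.mem_product] at hy
  exact hB _ hy.1

end Pool.Agent.G5
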