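import Pool.Agent.Lib_helper38.G4.KER
import Pool.Agent.Lib_helper44.G5.Defs

/-! Blocks KPOL and GSH (helper38). -/

namespace Pool.Agent.G5

open Complex MeasureTheory Filter Topology

open Pool.Agent.G4 (par Ix ev pairs RSB IsKer D hatw smo)

variable {m : ℕ}

theorem KPOL_ker_lin {κ : ℝ} {K₁ K₂ : ℝ → ℂ} (h₁ : IsKer κ K₁) (h₂ : IsKer κ K₂) (a b : ℂ) :
    IsKer κ (fun u => a * K₁ u + b * K₂ u) := by
  refine ⟨(continuous_const.mul h₁.cont).add (continuous_const.mul h₂.cont), fun A hA => ?_⟩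
  obtain ⟨C₁, hC₁⟩ := h₁.le A hA
  obtain ⟨C₂, hC₂⟩ := h₂.le A hA
  refine ⟨‖a‖ * C₁ + ‖b‖ * C₂, fun u => ?_⟩
  refine (norm_add_le _ _).trans ?_
  rw [norm_mul, norm_mul, add_mul, mul_assoc, mul_assoc]
  exact add_le_add (mul_le_mul_of_nonneg_left (hC₁ u) (norm_nonneg a))
    (mul_le_mul_of_nonneg_left (hC₂ u) (norm_nonneg b))

theorem KPOL_decay {κ : ℝ} (hm : 1 ≤ m) (μ : Fin m → ℂ)
    (hμ : ∀ j, (μ j).re < 1 / 2 - κ) (σ : ℝ) (hσ : -κ < σ) : ∃ C : ℝ, ∀ t : ℝ,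
      ‖∏ j, Gammaℝ (1 / 2 + σ + t * I - μ j)‖ ≤ C / (1 + t ^ 2) := by
  obtain ⟨n, rfl⟩ : ∃ n, m = n + 1 := ⟨m - 1, by omega⟩
  have hpos : ∀ j, 0 < 1 / 2 + σ - (μ j).re := fun j => by
    have := hμ j
    linarith
  choose C hC using fun j => G4.gamma_decay_pr (hpos j) (-(μ j).im)
  refine ⟨∏ j, |C j|, fun t => ?_⟩
  have hterm : ∀ j, ‖Gammaℝ (1 / 2 + σ + t * I - μ j)‖ ≤ |C j| / (1 + t ^ 2) := by
    intro j
    have h1 := hC j t
    have h2 : (1 / 2 + (σ : ℂ) + t * I - μ j) =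
        (((1 / 2 + σ - (μ j).re : ℝ) : ℂ) + (t + ((-(μ j).im : ℝ) : ℂ)) * I) := by
      apply Complex.ext
      · simp
      · simp only [Complex.sub_im, Complex.add_im, Complex.mul_im, Complex.ofReal_re,
          Complex.ofReal_im, Complex.I_re, Complex.I_im, Complex.add_re]
        norm_num
        ring
    rw [h2]
    refine h1.trans ?_
    gcongr
    exact le_abs_self _
  have h1 : ‖∏ j, Gammaℝ (1 / 2 + σ + t * I - μ j)‖ ≤ ∏ j, (|C j| / (1 + t ^ 2)) := by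
    rw [norm_prod]
    exact Finset.prod_le_prod (fun j _ => norm_nonneg _) (fun j _ => hterm j)
  refine h1.trans ?_
  rw [Finset.prod_div_distrib, Finset.prod_const, Finset.card_univ, Fintype.card_fin]
  have h2 : 1 ≤ 1 + t ^ 2 := by nlinarith [sq_nonneg t]
  have h3 : 1 + t ^ 2 ≤ (1 + t ^ 2) ^ (n + 1) := by
    calc 1 + t ^ 2 = (1 + t ^ 2) ^ 1 := (pow_one _).symm
      _ ≤ (1 + t ^ 2) ^ (n + 1) := pow_le_pow_right₀ h2 (by omega)
  have h4 : 0 ≤ ∏ j, |C j| := Finset.prod_nonneg fun j _ => abs_nonneg _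
  exact div_le_div_of_nonneg_left h4 (by positivity) h3

/-- the algebraic step -/
theorem KPOL_step {κ : ℝ} (μ : Fin m → ℂ) (hμ : ∀ j, (μ j).re < 1 / 2 - κ) (j₀ : Fin m)
    (A z : ℂ) (hz : -κ < z.re) (P : ℂ) :
    (A - (1 / 2 + z)) * P * ∏ j, Gammaℝ (1 / 2 + z - μ j) =
      (A - μ j₀) * (P * ∏ j, Gammaℝ (1 / 2 + z - μ j)) +
        (-(2 * Real.pi : ℂ)) * (P * ∏ j, Gammaℝ (1 / 2 + z - Function.update μ j₀ (μ j₀ - 2) j)) := by
  classical
  have h1 : ∏ j, Gammaℝ (1 / 2 + z - μ j) =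
      Gammaℝ (1 / 2 + z - μ j₀) * ∏ j ∈ Finset.univ.erase j₀, Gammaℝ (1 / 2 + z - μ j) :=
    (Finset.mul_prod_erase _ (fun j => Gammaℝ (1 / 2 + z - μ j)) (Finset.mem_univ j₀)).symm
  have h2 : ∏ j, Gammaℝ (1 / 2 + z - Function.update μ j₀ (μ j₀ - 2) j) =
      Gammaℝ (1 / 2 + z - μ j₀ + 2) * ∏ j ∈ Finset.univ.erase j₀, Gammaℝ (1 / 2 + z - μ j) := by
    rw [← Finset.mul_prod_erase _ _ (Finset.mem_univ j₀)]
    congr 1
    · rw [Function.update_self]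
      congr 1
      ring
    · apply Finset.prod_congr rfl
      intro j hj
      rw [Function.update_of_ne (Finset.ne_of_mem_erase hj)]
  have h3 : 1 / 2 + z - μ j₀ ≠ 0 := by
    intro h0
    have h4 := congrArg Complex.re h0
    have h5 := hμ j₀
    simp only [Complex.sub_re, Complex.add_re, Complex.zero_re] at h4
    norm_num at h4
    linarith
  rw [h1, h2, Gammaℝ_add_two h3]
  have hpi : (Real.pi : ℂ) ≠ 0 := by exact_mod_cast Real.pi_ne_zero
  field_simp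
  ring

/-- KPOL -/
theorem ker_poly_pr {κ : ℝ} (hκ : 0 < κ) (hm : 1 ≤ m) (L : List ℂ) (μ : Fin m → ℂ)
    (hμ : ∀ j, (μ j).re < 1 / 2 - κ) :
    (∃ K : ℝ → ℂ, IsKer κ K ∧ ∀ z : ℂ, -κ < z.re → ∫ u : ℝ, K u * cexp (z * u) =
      (L.map fun A => A - (1 / 2 + z)).prod * ∏ j, Gammaℝ (1 / 2 + z - μ j)) ∧
    ∀ σ : ℝ, -κ < σ → ∃ C : ℝ, ∀ t : ℝ,
      ‖(L.map fun A => A - (1 / 2 + σ + t * I)).prod * ∏ j, Gammaℝ (1 / 2 + σ + t * I - μ j)‖ ≤
        C / (1 + t ^ 2) := by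
  induction L generalizing μ with
  | nil =>
    obtain ⟨n, rfl⟩ : ∃ n, m = n + 1 := ⟨m - 1, by omega⟩
    constructor
    · obtain ⟨K, hK, hz⟩ := G4.KER_family hκ n μ hμ
      refine ⟨K, hK, fun z h => ?_⟩
      rw [hz z h]
      simp
    · intro σ hσ
      obtain ⟨C, hC⟩ := KPOL_decay hm μ hμ σ hσ
      refine ⟨C, fun t => ?_⟩
      simpa using hC t
  | cons A L ih =>
    have j₀ : Fin m := ⟨0, hm⟩
    have hμ' : ∀ j, (Function.update μ j₀ (μ j₀ - 2) j).re < 1 / 2 - κ := by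
      intro j
      by_cases hj : j = j₀
      · rw [hj, Function.update_self]
        have := hμ j₀
        simp only [Complex.sub_re]
        norm_num
        linarith
      · rw [Function.update_of_ne hj]
        exact hμ j
    obtain ⟨⟨K₁, hK₁, hz₁⟩, hd₁⟩ := ih μ hμ
    obtain ⟨⟨K₂, hK₂, hz₂⟩, hd₂⟩ := ih _ hμ'
    constructor
    · refine ⟨_, KPOL_ker_lin hK₁ hK₂ (A - μ j₀) (-(2 * Real.pi : ℂ)), fun z hz => ?_⟩
      have i₁ := G4.KER2_integrable hK₁ hz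
      have i₂ := G4.KER2_integrable hK₂ hz
      have h1 : (fun u : ℝ => ((A - μ j₀) * K₁ u + (-(2 * Real.pi : ℂ)) * K₂ u) * cexp (z * u)) =
          fun u : ℝ => (A - μ j₀) * (K₁ u * cexp (z * u)) +
            (-(2 * Real.pi : ℂ)) * (K₂ u * cexp (z * u)) := by
        funext u
        ring
      rw [h1, integral_add (i₁.const_mul _) (i₂.const_mul _), integral_const_mul,
        integral_const_mul, hz₁ z hz, hz₂ z hz, List.map_cons, List.prod_cons]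
      exact (KPOL_step μ hμ j₀ A z hz _).symm
    · intro σ hσ
      obtain ⟨C₁, hC₁⟩ := hd₁ σ hσ
      obtain ⟨C₂, hC₂⟩ := hd₂ σ hσ
      refine ⟨‖A - μ j₀‖ * C₁ + ‖-(2 * Real.pi : ℂ)‖ * C₂, fun t => ?_⟩
      have h1 := KPOL_step μ hμ j₀ A (σ + t * I) (by simpa using hσ)
        (L.map fun A => A - (1 / 2 + σ + t * I)).prod
      rw [← add_assoc] at h1
      rw [List.map_cons, List.prod_cons, h1]
      refine (norm_add_le _ _).trans ?_
      rw [norm_mul (A - μ j₀), norm_mul (-(2 * Real.pi : ℂ)), add_div, mul_div_assoc,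
        mul_div_assoc]
      exact add_le_add (mul_le_mul_of_nonneg_left (hC₁ t) (norm_nonneg _))
        (mul_le_mul_of_nonneg_left (hC₂ t) (norm_nonneg _))

/-- GSH -/
theorem gammaR_shift_pr (s : ℂ) (r : ℕ) (h : 0 < s.re + 2 * r) :
    (2 * Real.pi : ℂ) ^ r * Gammaℝ (s + 2 * r) * (Gammaℝ s)⁻¹ =
      ∏ i ∈ Finset.range r, (s + 2 * i) := by
  have hpi : (Real.pi : ℂ) ≠ 0 := by exact_mod_cast Real.pi_ne_zero
  by_cases h0 : Gammaℝ s = 0
  · rw [h0, inv_zero, mul_zero]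
    obtain ⟨n, hn⟩ := Gammaℝ_eq_zero_iff.mp h0
    symm
    rw [Finset.prod_eq_zero_iff]
    refine ⟨n, ?_, ?_⟩
    · rw [Finset.mem_range]
      rw [hn] at h
      simp at h
      exact_mod_cast h
    · rw [hn]; ring
  · have hne : ∀ i : ℕ, s + 2 * i ≠ 0 := by
      intro i hi
      exact h0 (Gammaℝ_eq_zero_iff.mpr ⟨i, by linear_combination hi⟩)
    have key : ∀ k : ℕ, (2 * Real.pi : ℂ) ^ k * Gammaℝ (s + 2 * k) =
        (∏ i ∈ Finset.range k, (s + 2 * i)) * Gammaℝ s := by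
      intro k
      induction k with
      | zero => simp
      | succ k ih =>
        rw [Finset.prod_range_succ]
        have h1 : s + 2 * ((k + 1 : ℕ) : ℂ) = s + 2 * k + 2 := by push_cast; ring
        rw [h1, Gammaℝ_add_two (hne k)]
        have h2 : (2 * Real.pi : ℂ) ^ (k + 1) * (Gammaℝ (s + 2 * k) * (s + 2 * k) / 2 / Real.pi) =
            ((2 * Real.pi : ℂ) ^ k * Gammaℝ (s + 2 * k)) * (s + 2 * k) := by
          rw [pow_succ]
          field_simp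
        rw [h2, ih]
        ring
    rw [key r, mul_assoc, mul_inv_cancel₀ h0, mul_one]

end Pool.Agent.G5
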